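import Pool.Agent.W996.EC.VStm

/-! EC project: plane model of a function field of one variable. -/

set_option autoImplicit false

namespace Pool.Agent.W597.EC

open Polynomial Pool.Agent.W996.EC

section general

variable {R K L : Type} [CommRing R] [IsDomain R] [UniqueFactorizationMonoid R]
  [Field K] [Algebra R K] [IsFractionRing R K] [Field L] [Algebra K L] [Algebra R L]
  [IsScalarTower R K L]

/-- the kernel of evaluation at an algebraic element is principal -/
theorem ker_principal (v : L) (hv : IsAlgebraic K v) :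
    ∃ F : R[X], Irreducible F ∧ 1 ≤ F.natDegree ∧ ∀ G : R[X], aeval v G = 0 ↔ F ∣ G := by
  classical
  let _ : NormalizedGCDMonoid R := Nonempty.some inferInstance
  have hint : IsIntegral K v := hv.isIntegral
  set p := minpoly K v with hp
  have hirr : Irreducible p := minpoly.irreducible hint
  obtain ⟨b, hb, hbP⟩ := IsLocalization.integerNormalization_spec (nonZeroDivisors R) p
  set P := IsLocalization.integerNormalization (nonZeroDivisors R) p with hP
  have hinj : Function.Injective (algebraMap R K) := IsFractionRing.injective R K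
  have hb0 : algebraMap R K b ≠ 0 := by
    intro h
    exact nonZeroDivisors.ne_zero hb (hinj (by rw [h, map_zero]))
  have hbP' : P.map (algebraMap R K) = C (algebraMap R K b) * p := by
    rw [hbP, Algebra.smul_def, Polynomial.algebraMap_apply]
  have hP0 : P ≠ 0 := by
    intro h
    rw [h, Polynomial.map_zero] at hbP'
    exact (mul_ne_zero (C_ne_zero.2 hb0) hirr.ne_zero) hbP'.symm
  set F := P.primPart with hF
  have hFprim : F.IsPrimitive := P.isPrimitive_primPart
  have hPF : P = C P.content * F := P.eq_C_content_mul_primPart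
  have hc0 : algebraMap R K P.content ≠ 0 := by
    intro h
    have : P.content = 0 := hinj (by rw [h, map_zero])
    exact hP0 (content_eq_zero_iff.1 this)
  have hmapF : C (algebraMap R K P.content) * F.map (algebraMap R K)
      = C (algebraMap R K b) * p := by
    rw [← hbP']
    conv_rhs => rw [hPF]
    rw [Polynomial.map_mul, Polynomial.map_C]
  have hassoc : Associated (F.map (algebraMap R K)) p := by
    have hu : ∀ (a : K) (q : K[X]), a ≠ 0 → Associated q (C a * q) := by
      intro a q ha
      refine ⟨(isUnit_C.2 (isUnit_iff_ne_zero.2 ha)).unit, ?_⟩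
      rw [IsUnit.unit_spec, mul_comm]
    have h1 := hu _ (F.map (algebraMap R K)) hc0
    have h2 := hu _ p hb0
    rw [hmapF] at h1
    exact h1.trans h2.symm
  have hFirrK : Irreducible (F.map (algebraMap R K)) := hassoc.symm.irreducible hirr
  have hFirr : Irreducible F :=
    (hFprim.irreducible_iff_irreducible_map_fraction_map (K := K)).2 hFirrK
  refine ⟨F, hFirr, ?_, ?_⟩
  · have h1 : (F.map (algebraMap R K)).natDegree = F.natDegree :=
      Polynomial.natDegree_map_eq_of_injective hinj F
    have h2 : 0 < (F.map (algebraMap R K)).natDegree := hFirrK.natDegree_pos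
    omega
  · intro G
    constructor
    · intro hG
      have h2 : aeval v (G.map (algebraMap R K)) = 0 := by
        rw [aeval_map_algebraMap]; exact hG
      have h3 : p ∣ G.map (algebraMap R K) := minpoly.dvd K v h2
      have h4 : F.map (algebraMap R K) ∣ G.map (algebraMap R K) :=
        hassoc.dvd.trans h3
      exact hFprim.dvd_of_fraction_map_dvd_fraction_map h4
    · rintro ⟨H, rfl⟩
      have h1 : aeval v (F.map (algebraMap R K)) = 0 := by
        obtain ⟨u, hu⟩ := hassoc.symm
        rw [← hu, map_mul, minpoly.aeval, zero_mul]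
      rw [aeval_map_algebraMap] at h1
      rw [map_mul, h1, zero_mul]

omit [UniqueFactorizationMonoid R] in
/-- elements of the simple extension are quotients of polynomials over the ring -/
theorem quot_simple (v x : L) (hx : x ∈ IntermediateField.adjoin K {v}) :
    ∃ A B : R[X], aeval v B ≠ 0 ∧ x * aeval v B = aeval v A := by
  rw [IntermediateField.mem_adjoin_simple_iff] at hx
  obtain ⟨r, s, hrs⟩ := hx
  by_cases hs : aeval v s = 0
  · refine ⟨0, 1, ?_, ?_⟩
    · simp
    · rw [hrs, hs]; simp
  obtain ⟨b, hb, hbr⟩ := IsLocalization.integerNormalization_spec (nonZeroDivisors R) r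
  obtain ⟨c, hc, hcs⟩ := IsLocalization.integerNormalization_spec (nonZeroDivisors R) s
  set r' := IsLocalization.integerNormalization (nonZeroDivisors R) r
  set s' := IsLocalization.integerNormalization (nonZeroDivisors R) s
  have hinj : Function.Injective (algebraMap R K) := IsFractionRing.injective R K
  have hinjL : Function.Injective (algebraMap R L) := by
    rw [IsScalarTower.algebraMap_eq R K L]
    exact (algebraMap K L).injective.comp hinj
  have hne : ∀ t ∈ nonZeroDivisors R, algebraMap R L t ≠ 0 := by
    intro t ht h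
    exact nonZeroDivisors.ne_zero ht (hinjL (by rw [h, map_zero]))
  have hr' : aeval v r' = algebraMap R L b * aeval v r := by
    have : aeval v (r'.map (algebraMap R K)) = aeval v (b • r) := by rw [hbr]
    rw [aeval_map_algebraMap] at this
    rw [this, ← algebraMap_smul K, map_smul, algebraMap_smul, Algebra.smul_def]
  have hs' : aeval v s' = algebraMap R L c * aeval v s := by
    have : aeval v (s'.map (algebraMap R K)) = aeval v (c • s) := by rw [hcs]
    rw [aeval_map_algebraMap] at this
    rw [this, ← algebraMap_smul K, map_smul, algebraMap_smul, Algebra.smul_def]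
  refine ⟨C c * r', C b * s', ?_, ?_⟩
  · rw [map_mul, aeval_C, hs']
    exact mul_ne_zero (hne b hb) (mul_ne_zero (hne c hc) hs)
  · rw [map_mul, map_mul, aeval_C, aeval_C, hs', hr', hrs]
    field_simp

end general

section special

variable {K L : Type} [Field K] [CharZero K] [Algebra ℂ[X] K] [IsFractionRing ℂ[X] K]
  [Field L] [Algebra K L] [Algebra ℂ L] [Algebra ℂ[X] L]
  [IsScalarTower ℂ[X] K L]

omit [CharZero K] [IsFractionRing ℂ[X] K] [Algebra K L] [Algebra ℂ[X] K] [Field K]
  [IsScalarTower ℂ[X] K L] in
theorem aevalAeval_eq (z0 v : L) (hz : ∀ p : ℂ[X], algebraMap ℂ[X] L p = aeval z0 p)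
    (G : ℂ[X][X]) : aevalAeval z0 v G = aeval v G := by
  induction G using Polynomial.induction_on' with
  | add p q hp hq => rw [map_add, map_add, hp, hq]
  | monomial n a =>
    rw [← C_mul_X_pow_eq_monomial, map_mul, map_mul, map_pow, map_pow, aevalAeval_C,
      aevalAeval_Y, aeval_C, aeval_X, hz]

theorem plane_gen (n : ℕ) (y : Fin n → L) (z0 : L)
    (hz : ∀ p : ℂ[X], algebraMap ℂ[X] L p = aeval z0 p)
    (hz0 : z0 ∈ IntermediateField.adjoin ℂ (Set.range y))
    (halg : ∀ j, IsAlgebraic K (y j)) :
    ∃ (F : ℂ[X][X]) (z0 v0 : L), Irreducible F ∧ 1 ≤ F.natDegree ∧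
    (∀ G : ℂ[X][X], aevalAeval z0 v0 G = 0 ↔ F ∣ G) ∧
    z0 ∈ IntermediateField.adjoin ℂ (Set.range y) ∧
    v0 ∈ IntermediateField.adjoin ℂ (Set.range y) ∧
    ∀ u ∈ IntermediateField.adjoin ℂ (Set.range y), ∃ A B : ℂ[X][X],
      aevalAeval z0 v0 B ≠ 0 ∧ u * aevalAeval z0 v0 B = aevalAeval z0 v0 A := by
  classical
  set M := IntermediateField.adjoin K (Set.range y) with hM
  set N := IntermediateField.adjoin ℂ (Set.range y) with hN
  have hpoly : ∀ p : ℂ[X], aeval z0 p ∈ N := by
    intro p
    have h1 : aeval z0 p ∈ Algebra.adjoin ℂ {z0} := aeval_mem_adjoin_singleton ℂ z0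
    exact (Algebra.adjoin_le (S := N.toSubalgebra) (by simpa using hz0)) h1
  have hMN : ∀ x ∈ M, x ∈ N := by
    intro x hx
    induction hx using IntermediateField.adjoin_induction with
    | mem x hx => exact IntermediateField.subset_adjoin ℂ _ hx
    | algebraMap k =>
      obtain ⟨a, b, hb, hk⟩ := IsFractionRing.div_surjective (A := ℂ[X]) k
      rw [← hk, map_div₀, ← IsScalarTower.algebraMap_apply, ← IsScalarTower.algebraMap_apply,
        hz, hz]
      exact div_mem (hpoly a) (hpoly b)
    | add x y _ _ hx hy => exact add_mem hx hy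
    | inv x _ hx => exact inv_mem hx
    | mul x y _ _ hx hy => exact mul_mem hx hy
  have hNM : ∀ x ∈ N, x ∈ M := by
    intro x hx
    induction hx using IntermediateField.adjoin_induction with
    | mem x hx => exact IntermediateField.subset_adjoin K _ hx
    | algebraMap c =>
      have h1 : algebraMap ℂ L c = algebraMap K L (algebraMap ℂ[X] K (C c)) := by
        rw [← IsScalarTower.algebraMap_apply, hz, aeval_C]
      rw [h1]
      exact M.algebraMap_mem _
    | add x y _ _ hx hy => exact add_mem hx hy
    | inv x _ hx => exact inv_mem hx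
    | mul x y _ _ hx hy => exact mul_mem hx hy
  have hfd : FiniteDimensional K M := by
    rw [hM]
    refine IntermediateField.finiteDimensional_adjoin ?_
    rintro x ⟨j, rfl⟩
    exact (halg j).isIntegral
  obtain ⟨α, hα⟩ := Field.exists_primitive_element K M
  have hv : IsAlgebraic K (α : L) := by
    have h1 : IsAlgebraic K α := Algebra.IsAlgebraic.isAlgebraic α
    exact h1.algebraMap
  obtain ⟨F, hF, hF1, hF2⟩ := ker_principal (R := ℂ[X]) (K := K) (α : L) hv
  refine ⟨F, z0, α, hF, hF1, ?_, hz0, hMN _ α.2, ?_⟩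
  · intro G
    rw [aevalAeval_eq z0 _ hz, hF2]
  · intro u hu
    have hu1 := hNM u hu
    have hu2 : u ∈ IntermediateField.adjoin K {(α : L)} := by
      have h1 : (⟨u, hu1⟩ : M) ∈ IntermediateField.adjoin K {α} := by
        rw [hα]; exact IntermediateField.mem_top
      have h2 : M.val ⟨u, hu1⟩ ∈ (IntermediateField.adjoin K {α}).map M.val :=
        ⟨_, h1, rfl⟩
      rw [IntermediateField.adjoin_map, Set.image_singleton] at h2
      exact h2
    obtain ⟨A, B, hB, hAB⟩ := quot_simple (R := ℂ[X]) (K := K) (α : L) u hu2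
    refine ⟨A, B, ?_, ?_⟩
    · rw [aevalAeval_eq z0 _ hz]; exact hB
    · rw [aevalAeval_eq z0 _ hz, aevalAeval_eq z0 _ hz]; exact hAB

end special

theorem t_plane : S_plane := by
  intro L _ _ n y ⟨i0, hi0⟩ hdep
  let _ : Algebra ℂ[X] L := (aeval (y i0) : ℂ[X] →ₐ[ℂ] L).toRingHom.toAlgebra
  have hz : ∀ p : ℂ[X], algebraMap ℂ[X] L p = aeval (y i0) p := fun p => rfl
  have hinj : Function.Injective (algebraMap ℂ[X] L) := transcendental_iff_injective.1 hi0
  have : FaithfulSMul ℂ[X] L := (faithfulSMul_iff_algebraMap_injective ℂ[X] L).2 hinj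
  let _ : Algebra (FractionRing ℂ[X]) L := FractionRing.liftAlgebra ℂ[X] L
  have : IsScalarTower ℂ[X] (FractionRing ℂ[X]) L :=
    FractionRing.isScalarTower_liftAlgebra ℂ[X] L
  refine plane_gen (K := FractionRing ℂ[X]) n y (y i0) hz
    (IntermediateField.subset_adjoin ℂ _ ⟨i0, rfl⟩) ?_
  intro j
  obtain ⟨f, hf0, hf⟩ := hdep i0 j
  have h1 : IsAlgebraic ℂ[X] (y j) := by
    refine ⟨(Bivariate.equivMvPolynomial ℂ).symm f, ?_, ?_⟩
    · intro h
      exact hf0 ((map_eq_zero_iff _ (Bivariate.equivMvPolynomial ℂ).symm.injective).1 h)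
    · rw [← aevalAeval_eq (y i0) (y j) hz]
      have h2 : ∀ g : MvPolynomial (Fin 2) ℂ, aevalAeval (y i0) (y j)
          ((Bivariate.equivMvPolynomial ℂ).symm g) = MvPolynomial.aeval ![y i0, y j] g := by
        intro g
        have h3 : ((aevalAeval (y i0) (y j)).comp
            ((Bivariate.equivMvPolynomial ℂ).symm : MvPolynomial (Fin 2) ℂ →ₐ[ℂ] ℂ[X][X]))
            = MvPolynomial.aeval ![y i0, y j] := by
          apply MvPolynomial.algHom_ext
          intro i
          fin_cases i
          · simp
          · simp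
        exact DFunLike.congr_fun h3 g
      rw [h2, hf]
  exact (IsFractionRing.isAlgebraic_iff ℂ[X] (FractionRing ℂ[X]) L).1 h1

end Pool.Agent.W597.EC
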